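import Pool.Agent.Lib_MP_be4ebb_co.Linear

/-!
The point-flag graph of a nontrivial linear space is biconnected; its number of edges.
-/

set_option autoImplicit false

namespace Pool.Agent.Lib_MP_be4ebb_co

variable {P F L : Type*} {pt : F → P} {ln : F → L}

/-- reachability in the graph with the vertex `r` deleted -/
theorem reach_point_point (h : LinAx pt ln) (r : P ⊕ F) (x y : P) (hx : Sum.inl x ≠ r)
    (hy : Sum.inl y ≠ r) (hxy : x ≠ y)
    (hr : ∀ f, r = Sum.inr f → ¬ (On pt ln x f ∧ On pt ln y f)) :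
    ((linGraph pt ln).induce {v | v ≠ r}).Reachable ⟨Sum.inl x, hx⟩ ⟨Sum.inl y, hy⟩ := by
  obtain ⟨f, g, hf, hg, hl⟩ := h.ex x y hxy
  have hfr : (Sum.inr f : P ⊕ F) ≠ r := fun e => hr f e.symm ⟨⟨f, rfl, hf⟩, ⟨g, hl.symm, hg⟩⟩
  have hgr : (Sum.inr g : P ⊕ F) ≠ r := fun e => hr g e.symm ⟨⟨f, hl, hf⟩, ⟨g, rfl, hg⟩⟩
  have hne : f ≠ g := fun e => hxy (by rw [← hf, ← hg, e])
  have a1 : ((linGraph pt ln).induce {v | v ≠ r}).Adj ⟨Sum.inl x, hx⟩ ⟨Sum.inr f, hfr⟩ := hf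
  have a2 : ((linGraph pt ln).induce {v | v ≠ r}).Adj ⟨Sum.inr f, hfr⟩ ⟨Sum.inr g, hgr⟩ :=
    ⟨hl, hne⟩
  have a3 : ((linGraph pt ln).induce {v | v ≠ r}).Adj ⟨Sum.inr g, hgr⟩ ⟨Sum.inl y, hy⟩ := hg
  exact a1.reachable.trans (a2.reachable.trans a3.reachable)

theorem bicon (h : LinAx pt ln) (h4 : ∀ f, ∃ g, ln g = ln f ∧ pt g ≠ pt f)
    (h5 : ∀ f, ∃ w, ¬ On pt ln w f) (r : P ⊕ F) (hP : ∃ x y : P, x ≠ y) :
    ((linGraph pt ln).induce {v | v ≠ r}).Connected := by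
  classical
  -- choose a hub point `w`
  obtain ⟨w, hw, hub⟩ : ∃ w : P, ∃ hw : Sum.inl w ≠ r, ∀ y : P, ∀ hy : Sum.inl y ≠ r,
      ((linGraph pt ln).induce {v | v ≠ r}).Reachable ⟨Sum.inl w, hw⟩ ⟨Sum.inl y, hy⟩ := by
    rcases r with x0 | f0
    · obtain ⟨x, y, hxy⟩ := hP
      have : ∃ w : P, w ≠ x0 := by
        by_cases e : x = x0
        · exact ⟨y, fun e' => hxy (by rw [e, e'])⟩
        · exact ⟨x, e⟩
      obtain ⟨w, hw⟩ := this
      refine ⟨w, fun e => hw (Sum.inl.inj e), fun y hy => ?_⟩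
      by_cases e : w = y
      · subst e
        exact SimpleGraph.Reachable.refl _
      · exact reach_point_point h _ w y _ _ e (fun f hf => absurd hf (by simp))
    · obtain ⟨w, hw⟩ := h5 f0
      refine ⟨w, by simp, fun y hy => ?_⟩
      by_cases e : w = y
      · subst e
        exact SimpleGraph.Reachable.refl _
      · refine reach_point_point h _ w y _ _ e ?_
        rintro f hf ⟨h6, _⟩
        rw [← Sum.inr.inj hf] at h6
        exact hw h6
  have key : ∀ a : {v | v ≠ r}, ((linGraph pt ln).induce {v | v ≠ r}).Reachable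
      ⟨Sum.inl w, hw⟩ a := by
    rintro ⟨x | f, ha⟩
    · exact hub x ha
    · by_cases hpf : (Sum.inl (pt f) : P ⊕ F) = r
      · obtain ⟨g, hg1, hg2⟩ := h4 f
        have hgr : (Sum.inr g : P ⊕ F) ≠ r := by
          rw [← hpf]
          simp
        have hpg : (Sum.inl (pt g) : P ⊕ F) ≠ r := by
          rw [← hpf]
          intro e
          exact hg2 (Sum.inl.inj e)
        have a1 : ((linGraph pt ln).induce {v | v ≠ r}).Adj ⟨Sum.inl (pt g), hpg⟩
          ⟨Sum.inr g, hgr⟩ := rfl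
        have a2 : ((linGraph pt ln).induce {v | v ≠ r}).Adj ⟨Sum.inr g, hgr⟩ ⟨Sum.inr f, ha⟩ :=
          ⟨hg1, fun e => hg2 (by rw [e])⟩
        exact (hub _ hpg).trans (a1.reachable.trans a2.reachable)
      · have a1 : ((linGraph pt ln).induce {v | v ≠ r}).Adj ⟨Sum.inl (pt f), hpf⟩
          ⟨Sum.inr f, ha⟩ := rfl
        exact (hub _ hpf).trans a1.reachable
  rw [SimpleGraph.connected_iff]
  exact ⟨fun a b => (key a).symm.trans (key b), ⟨⟨Sum.inl w, hw⟩⟩⟩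

/-- the number of ordered pairs of adjacent vertices -/
noncomputable def adjPairs {V : Type*} (G : SimpleGraph V) : ℕ :=
  Nat.card {p : V × V // G.Adj p.1 p.2}

theorem adjPairs_congr {V W : Type*} {G : SimpleGraph V} {H : SimpleGraph W} (e : G ≃g H) :
    adjPairs G = adjPairs H := by
  refine Nat.card_congr ⟨fun p => ⟨(e p.1.1, e p.1.2), e.map_rel_iff.2 p.2⟩,
    fun p => ⟨(e.symm p.1.1, e.symm p.1.2), e.symm.map_rel_iff.2 p.2⟩, ?_, ?_⟩
  · rintro ⟨⟨a, b⟩, h⟩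
    simp
  · rintro ⟨⟨a, b⟩, h⟩
    simp

/-- pairs of flags on a common line correspond to pairs of distinct points -/
noncomputable def flagPairs (h : LinAx pt ln) :
    {p : F × F // ln p.1 = ln p.2 ∧ p.1 ≠ p.2} ≃ {p : P × P // p.1 ≠ p.2} := by
  refine Equiv.ofBijective (fun p => ⟨(pt p.1.1, pt p.1.2),
    fun e => p.2.2 (h.inj _ _ e p.2.1)⟩) ⟨?_, ?_⟩
  · rintro ⟨⟨f, g⟩, h1, h2⟩ ⟨⟨f', g'⟩, h1', h2'⟩ he
    simp only [Subtype.mk.injEq, Prod.mk.injEq] at he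
    have h3 : pt f ≠ pt g := fun e => h2 (h.inj _ _ e h1)
    obtain ⟨e1, e2⟩ := h.uniq' h1 h1' he.1 he.2 h3
    exact Subtype.ext (Prod.ext e1 e2)
  · rintro ⟨⟨x, y⟩, hxy⟩
    obtain ⟨f, g, hf, hg, hl⟩ := h.ex x y hxy
    refine ⟨⟨(f, g), hl, fun e => hxy ?_⟩, ?_⟩
    · simp only at hxy e ⊢
      rw [← hf, ← hg, e]
    · simp [hf, hg]

theorem adjPairs_linGraph [Finite P] [Finite F] (h : LinAx pt ln) :
    adjPairs (linGraph pt ln) + Nat.card P = 2 * Nat.card F + Nat.card P * Nat.card P := by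
  classical
  have e1 : {p : (P ⊕ F) × (P ⊕ F) // (linGraph pt ln).Adj p.1 p.2} ≃
      (F ⊕ F) ⊕ {p : F × F // ln p.1 = ln p.2 ∧ p.1 ≠ p.2} :=
    { toFun := fun p => match p with
        | ⟨(Sum.inl _, Sum.inl _), hp⟩ => hp.elim
        | ⟨(Sum.inl _, Sum.inr f), _⟩ => Sum.inl (Sum.inl f)
        | ⟨(Sum.inr f, Sum.inl _), _⟩ => Sum.inl (Sum.inr f)
        | ⟨(Sum.inr f, Sum.inr g), hp⟩ => Sum.inr ⟨(f, g), hp⟩
      invFun := fun q => match q with
        | Sum.inl (Sum.inl f) => ⟨(Sum.inl (pt f), Sum.inr f), rfl⟩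
        | Sum.inl (Sum.inr f) => ⟨(Sum.inr f, Sum.inl (pt f)), rfl⟩
        | Sum.inr ⟨(f, g), hp⟩ => ⟨(Sum.inr f, Sum.inr g), hp⟩
      left_inv := by
        rintro ⟨⟨x | f, y | g⟩, hp⟩
        · exact hp.elim
        · simp only [adj_pf] at hp
          subst hp
          rfl
        · simp only [adj_fp] at hp
          subst hp
          rfl
        · rfl
      right_inv := by
        rintro ((f | f) | ⟨⟨f, g⟩, hp⟩) <;> rfl }
  have e2 : Nat.card {p : P × P // p.1 ≠ p.2} + Nat.card P = Nat.card P * Nat.card P := by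
    have e3 : {p : P × P // p.1 = p.2} ≃ P :=
      ⟨fun p => p.1.1, fun x => ⟨(x, x), rfl⟩, by rintro ⟨⟨x, y⟩, hxy⟩; simp only at hxy; subst hxy; rfl,
        fun x => rfl⟩
    have e4 := Nat.card_congr (Equiv.sumCompl (fun p : P × P => p.1 = p.2))
    rw [Nat.card_sum, Nat.card_prod, Nat.card_congr e3] at e4
    rw [← e4, add_comm]
  have e5 : adjPairs (linGraph pt ln) = (Nat.card F + Nat.card F) +
      Nat.card {p : P × P // p.1 ≠ p.2} := by
    unfold adjPairs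
    rw [Nat.card_congr e1, Nat.card_sum, Nat.card_sum, Nat.card_congr (flagPairs h)]
  omega

end Pool.Agent.Lib_MP_be4ebb_co
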