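import Mathlib

/-!
Definitions of geodetic and biconnected graphs, and a local criterion for being geodetic.
-/

set_option autoImplicit false

namespace Pool.Agent.Lib_MP_be4ebb_co

/-- A graph is geodetic if it is connected and any two vertices `u`, `v` are joined by exactly one
shortest path. -/
def IsGeodetic {V : Type*} (G : SimpleGraph V) : Prop :=
  G.Connected ∧ ∀ u v : V, ∃! p : G.Walk u v, p.IsPath ∧ p.length = G.dist u v

/-- A graph is biconnected if it has at least three vertices, is connected, and stays connected
after deleting any single vertex. -/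
def IsBiconnected {V : Type*} (G : SimpleGraph V) : Prop :=
  3 ≤ Nat.card V ∧ G.Connected ∧ ∀ r : V, (G.induce {v | v ≠ r}).Connected

/-- local description of the distance function of a geodetic graph -/
def Crit {V : Type*} (G : SimpleGraph V) (d : V → V → ℕ) : Prop :=
  (∀ v, d v v = 0) ∧ ∀ u v, u ≠ v → ∃ w, G.Adj u w ∧ d w v + 1 = d u v ∧
    ∀ w', G.Adj u w' → w' ≠ w → d u v ≤ d w' v

variable {V : Type*} {G : SimpleGraph V} {d : V → V → ℕ}

theorem Crit.exists_walk (h : Crit G d) : ∀ (k : ℕ) (u v : V), d u v = k →
    ∃ p : G.Walk u v, p.length = k := by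
  intro k
  induction k with
  | zero =>
    intro u v huv
    by_cases he : u = v
    · subst he
      exact ⟨SimpleGraph.Walk.nil, rfl⟩
    · obtain ⟨w, _, hw, _⟩ := h.2 u v he
      omega
  | succ k ih =>
    intro u v huv
    by_cases he : u = v
    · subst he
      rw [h.1] at huv
      omega
    · obtain ⟨w, ha, hw, _⟩ := h.2 u v he
      obtain ⟨p, hp⟩ := ih w v (by omega)
      exact ⟨SimpleGraph.Walk.cons ha p, by simp [hp]⟩

theorem Crit.le_length (h : Crit G d) : ∀ {u v : V} (p : G.Walk u v), d u v ≤ p.length := by
  intro u v p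
  induction p with
  | nil => simp [h.1]
  | @cons u w v ha p ih =>
    rw [SimpleGraph.Walk.length_cons]
    by_cases he : u = v
    · subst he
      rw [h.1]
      omega
    · obtain ⟨w0, _, hw, hw'⟩ := h.2 u v he
      by_cases hww : w = w0
      · subst hww
        omega
      · have := hw' w ha hww
        omega

theorem Crit.dist_eq (h : Crit G d) (u v : V) : G.dist u v = d u v := by
  obtain ⟨p, hp⟩ := h.exists_walk _ u v rfl
  refine le_antisymm (hp ▸ SimpleGraph.dist_le p) ?_
  obtain ⟨q, hq⟩ := (SimpleGraph.Walk.reachable p).exists_walk_length_eq_dist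
  rw [← hq]
  exact h.le_length q

theorem Crit.unique (h : Crit G d) : ∀ {u v : V} (p q : G.Walk u v), p.length = d u v →
    q.length = d u v → p = q := by
  intro u v p
  induction p with
  | @nil u =>
    intro q _ hq
    rw [h.1] at hq
    cases q with
    | nil => rfl
    | cons _ _ => simp at hq
  | @cons u w v ha p ih =>
    intro q hp hq
    rw [SimpleGraph.Walk.length_cons] at hp
    have he : u ≠ v := by
      rintro rfl
      rw [h.1] at hp
      omega
    obtain ⟨w0, _, hw, hw'⟩ := h.2 u v he
    cases q with
    | nil => exact absurd rfl he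
    | @cons _ w2 _ ha2 q =>
      rw [SimpleGraph.Walk.length_cons] at hq
      have h1 := h.le_length p
      have h2 := h.le_length q
      have e1 : w = w0 := by
        by_contra hne
        have := hw' w ha hne
        omega
      have e2 : w2 = w0 := by
        by_contra hne
        have := hw' w2 ha2 hne
        omega
      subst e1
      subst e2
      rw [ih q (by omega) (by omega)]

theorem Crit.connected [Nonempty V] (h : Crit G d) : G.Connected := by
  rw [SimpleGraph.connected_iff]
  refine ⟨fun u v => ?_, inferInstance⟩
  obtain ⟨p, _⟩ := h.exists_walk _ u v rfl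
  exact p.reachable

theorem Crit.isGeodetic [Nonempty V] (h : Crit G d) : IsGeodetic G := by
  refine ⟨h.connected, fun u v => ?_⟩
  obtain ⟨p, hp⟩ := h.exists_walk _ u v rfl
  have hd := h.dist_eq u v
  refine ⟨p, ⟨?_, by rw [hd, hp]⟩, ?_⟩
  · exact SimpleGraph.Walk.isPath_of_length_eq_dist p (by rw [hd, hp])
  · rintro q ⟨_, hq⟩
    exact h.unique q p (by rw [hq, hd]) hp

end Pool.Agent.Lib_MP_be4ebb_co
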