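import Pool.Agent.Lib_MP_be4ebb_co.Pencil

/-!
Arithmetic of the family, and transport of graphs to `Fin n`.
-/

set_option autoImplicit false

namespace Pool.Agent.Lib_MP_be4ebb_co

/-- class index type -/
abbrev Idx (a b s : ℕ) := Unit ⊕ (Fin a ⊕ (Fin b ⊕ Fin s))

/-- class sizes: one class of size `m`, `a` classes of size 2, `b` of size 3, `s` of size 1 -/
def sz (m a b s : ℕ) : Idx a b s → ℕ
  | Sum.inl _ => m
  | Sum.inr (Sum.inl _) => 2
  | Sum.inr (Sum.inr (Sum.inl _)) => 3
  | Sum.inr (Sum.inr (Sum.inr _)) => 1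

theorem sum_sz (m a b s : ℕ) : ∑ i, sz m a b s i = m + 2 * a + 3 * b + s := by
  simp [Fintype.sum_sum_type, sz]
  ring

theorem sum_sz_sq (m a b s : ℕ) : ∑ i, sz m a b s i ^ 2 = m ^ 2 + 4 * a + 9 * b + s := by
  simp [Fintype.sum_sum_type, sz]
  ring

theorem card_idx (a b s : ℕ) : Fintype.card (Idx a b s) = 1 + a + b + s := by
  simp [Idx, Fintype.card_sum]
  ring

/-- isomorphic graphs: biconnectedness is invariant -/
theorem IsBiconnected.of_iso {V W : Type*} {G : SimpleGraph V} {H : SimpleGraph W} (e : G ≃g H)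
    (h : IsBiconnected G) : IsBiconnected H := by
  refine ⟨?_, e.connected_iff.1 h.2.1, fun r => ?_⟩
  · rw [← Nat.card_congr e.toEquiv]
    exact h.1
  · have h1 := h.2.2 (e.symm r)
    have e2 : (G.induce {v | v ≠ e.symm r}) ≃g (H.induce {v | v ≠ r}) :=
      { toEquiv := e.toEquiv.subtypeEquiv (fun v => by
          simp only [Set.mem_ofPred_eq, ne_eq]
          rw [not_iff_not]
          constructor
          · rintro rfl
            simp
          · intro hv
            rw [← hv]
            simp)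
        map_rel_iff' := by
          rintro ⟨u, hu⟩ ⟨v, hv⟩
          exact e.map_rel_iff }
    exact e2.connected_iff.1 h1

/-- isomorphic graphs: the criterion is invariant -/
theorem Crit.of_iso {V W : Type*} {G : SimpleGraph V} {H : SimpleGraph W} {d : V → V → ℕ}
    (e : G ≃g H) (h : Crit G d) : Crit H (fun u v => d (e.symm u) (e.symm v)) := by
  refine ⟨fun v => h.1 _, fun u v huv => ?_⟩
  obtain ⟨w, h1, h2, h3⟩ := h.2 (e.symm u) (e.symm v) (fun h' => huv (e.symm.injective h'))
  refine ⟨e w, ?_, ?_, ?_⟩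
  · have := e.map_rel_iff.2 h1
    simpa using this
  · simpa using h2
  · intro w' hw' hne
    refine h3 (e.symm w') (e.symm.map_rel_iff.2 hw') ?_
    rintro rfl
    exact hne (by simp)

/-- arithmetic: the members of the family with `n` vertices -/
theorem exists_graph (n m a b s : ℕ) (hm : 1 ≤ m) (hab : 1 ≤ a + b)
    (hn : n + m ^ 2 + 3 * a + 8 * b = (1 + m + 2 * a + 3 * b + s) ^ 2 + 1) :
    ∃ H : SimpleGraph (Fin n), IsGeodetic H ∧ IsBiconnected H ∧
      adjPairs H + 3 * (1 + m + 2 * a + 3 * b + s) =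
        2 * n + (1 + m + 2 * a + 3 * b + s) ^ 2 := by
  classical
  have hk : ∀ i, 1 ≤ sz m a b s i := by
    rintro (_ | _ | _ | _) <;> simp [sz, hm]
  have hι : ∀ i : Idx a b s, ∃ j, j ≠ i := by
    intro i
    have : 1 < Fintype.card (Idx a b s) := by
      rw [card_idx]
      omega
    rw [Fintype.one_lt_card_iff_nontrivial] at this
    exact exists_ne i
  have hb : IsBiconnected (GG (sz m a b s)) := GG_bicon _ hk hι
  have hp := card_points (sz m a b s)
  have hf := card_flags (sz m a b s)
  have he := adjPairs_linGraph (linAx (sz m a b s))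
  rw [sum_sz] at hp hf
  rw [sum_sz_sq, card_idx] at hf
  set F := Nat.card (Fl (sz m a b s)) with hF
  set A := adjPairs (linGraph (pt (sz m a b s)) (ln (sz m a b s))) with hA
  have hcard : Nat.card (Option (X (sz m a b s)) ⊕ Fl (sz m a b s)) = n := by
    rw [Nat.card_sum, hp, ← hF]
    nlinarith
  have e : (Option (X (sz m a b s)) ⊕ Fl (sz m a b s)) ≃ Fin n :=
    Nat.equivFinOfCardPos (by rw [hcard]; rintro rfl; nlinarith) |>.trans (finCongr hcard)
  let H : SimpleGraph (Fin n) := (GG (sz m a b s)).comap e.symm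
  have iso : GG (sz m a b s) ≃g H :=
    { toEquiv := e
      map_rel_iff' := by
        intro u v
        simp [H, SimpleGraph.comap_adj] }
  have : Nonempty (Fin n) := ⟨e (Sum.inl none)⟩
  refine ⟨H, ((linAx (sz m a b s)).crit.of_iso iso).isGeodetic, hb.of_iso iso, ?_⟩
  have h1 : adjPairs H = A := (adjPairs_congr iso).symm
  have h2 : Nat.card (Option (X (sz m a b s))) + F = n := by
    rw [← hcard, Nat.card_sum]
  rw [h1]
  rw [hp] at he h2
  nlinarith

end Pool.Agent.Lib_MP_be4ebb_co
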