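import Pool.Agent.Lib_MP_be4ebb_co.Crit

/-!
The point-flag graph of a linear space is geodetic and biconnected.
-/

set_option autoImplicit false

namespace Pool.Agent.Lib_MP_be4ebb_co

variable {P F L : Type*}

/-- The graph on points and flags of an incidence structure: a flag `f` lies on the point `pt f`
and on the line `ln f`. A point is adjacent to its flags, and flags on the same line are adjacent. -/
def linGraph (pt : F → P) (ln : F → L) : SimpleGraph (P ⊕ F) where
  Adj a b := match a, b with
    | Sum.inl _, Sum.inl _ => False
    | Sum.inl x, Sum.inr f => pt f = x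
    | Sum.inr f, Sum.inl x => pt f = x
    | Sum.inr f, Sum.inr g => ln f = ln g ∧ f ≠ g
  symm := ⟨by
    rintro (x | f) (y | g) h
    · exact h
    · exact h
    · exact h
    · exact ⟨h.1.symm, fun e => h.2 e.symm⟩⟩
  loopless := ⟨by
    rintro (x | f) h
    · exact h
    · exact h.2 rfl⟩

@[simp] theorem adj_pp (pt : F → P) (ln : F → L) (x y : P) :
    (linGraph pt ln).Adj (Sum.inl x) (Sum.inl y) ↔ False := Iff.rfl

@[simp] theorem adj_pf (pt : F → P) (ln : F → L) (x : P) (f : F) :
    (linGraph pt ln).Adj (Sum.inl x) (Sum.inr f) ↔ pt f = x := Iff.rfl

@[simp] theorem adj_fp (pt : F → P) (ln : F → L) (x : P) (f : F) :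
    (linGraph pt ln).Adj (Sum.inr f) (Sum.inl x) ↔ pt f = x := Iff.rfl

@[simp] theorem adj_ff (pt : F → P) (ln : F → L) (f g : F) :
    (linGraph pt ln).Adj (Sum.inr f) (Sum.inr g) ↔ ln f = ln g ∧ f ≠ g := Iff.rfl

/-- the axioms of a linear space, in terms of flags -/
structure LinAx (pt : F → P) (ln : F → L) : Prop where
  inj : ∀ f g, pt f = pt g → ln f = ln g → f = g
  ex : ∀ x y, x ≠ y → ∃ f g, pt f = x ∧ pt g = y ∧ ln f = ln g
  uniq : ∀ f g f' g', ln f = ln g → ln f' = ln g' → pt f = pt f' → pt g = pt g' → pt f ≠ pt g →
    ln f = ln f'

/-- the point `x` lies on the line of the flag `f` -/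
def On (pt : F → P) (ln : F → L) (x : P) (f : F) : Prop := ∃ g, ln g = ln f ∧ pt g = x

/-- the lines of `f` and `g` meet -/
def Meet (pt : F → P) (ln : F → L) (f g : F) : Prop :=
  ∃ h k, ln h = ln f ∧ ln k = ln g ∧ pt h = pt k

open Classical in
/-- the distance function -/
noncomputable def dd (pt : F → P) (ln : F → L) : P ⊕ F → P ⊕ F → ℕ
  | Sum.inl x, Sum.inl y => if x = y then 0 else 3
  | Sum.inl x, Sum.inr f => if pt f = x then 1 else if On pt ln x f then 2 else 4
  | Sum.inr f, Sum.inl x => if pt f = x then 1 else if On pt ln x f then 2 else 4
  | Sum.inr f, Sum.inr g =>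
    if f = g then 0 else if ln f = ln g then 1 else if pt f = pt g then 2 else
      if On pt ln (pt g) f ∨ On pt ln (pt f) g then 3 else if Meet pt ln f g then 4 else 5

section

variable {pt : F → P} {ln : F → L} (h : LinAx pt ln)

include h

theorem LinAx.uniq' {f g f' g' : F} (h1 : ln f = ln g) (h2 : ln f' = ln g') (h3 : pt f = pt f')
    (h4 : pt g = pt g') (h5 : pt f ≠ pt g) : f = f' ∧ g = g' := by
  have h6 := h.uniq f g f' g' h1 h2 h3 h4 h5
  exact ⟨h.inj _ _ h3 h6, h.inj _ _ h4 (by rw [← h1, h6, h2])⟩

theorem LinAx.crit : Crit (linGraph pt ln) (dd pt ln) := by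
  classical
  refine ⟨?_, ?_⟩
  · rintro (x | f) <;> simp [dd]
  · rintro (x | f) (y | g) hne
    · -- point, point
      have hxy : x ≠ y := fun e => hne (by rw [e])
      obtain ⟨f, g, hf, hg, hl⟩ := h.ex x y hxy
      refine ⟨Sum.inr f, hf, ?_, ?_⟩
      · simp only [dd]
        rw [if_neg (by rw [hf]; exact hxy), if_pos ⟨g, hl.symm, hg⟩, if_neg hxy]
      · rintro (z | f') hz hz'
        · exact hz.elim
        · simp only [adj_pf] at hz
          simp only [dd]
          rw [if_neg hxy, if_neg (by rw [hz]; exact hxy), if_neg]
          · omega
          · rintro ⟨g', hg', hg''⟩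
            apply hz'
            have := (h.uniq' (f := f) (g := g) (f' := f') (g' := g') hl hg'.symm
              (by rw [hf, hz]) (by rw [hg, hg'']) (by rw [hf, hg]; exact hxy)).1
            rw [this]
    · -- point `x`, flag `g`
      by_cases h1 : pt g = x
      · refine ⟨Sum.inr g, h1, ?_, ?_⟩
        · simp [dd, h1]
        · rintro (z | f') hz hz'
          · exact hz.elim
          · simp only [adj_pf] at hz
            have hfg : f' ≠ g := fun e => hz' (by rw [e])
            have hln : ln f' ≠ ln g := fun e => hfg (h.inj _ _ (by rw [hz, h1]) e)
            simp only [dd]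
            rw [if_pos h1, if_neg hfg, if_neg hln, if_pos (by rw [hz, h1])]
            omega
      · by_cases h2 : On pt ln x g
        · obtain ⟨f, hf1, hf2⟩ := h2
          have hfg : f ≠ g := fun e => h1 (by rw [← e, hf2])
          refine ⟨Sum.inr f, hf2, ?_, ?_⟩
          · simp only [dd]
            rw [if_neg hfg, if_pos hf1, if_neg h1, if_pos ⟨f, hf1, hf2⟩]
          · rintro (z | f') hz hz'
            · exact hz.elim
            · simp only [adj_pf] at hz
              have hff : f' ≠ f := fun e => hz' (by rw [e])
              have hfg' : f' ≠ g := fun e => h1 (by rw [← e, hz])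
              have hln : ln f' ≠ ln g := fun e => hff (h.inj _ _ (by rw [hz, hf2]) (by rw [e, hf1]))
              simp only [dd]
              rw [if_neg h1, if_pos ⟨f, hf1, hf2⟩, if_neg hfg', if_neg hln,
                if_neg (by rw [hz]; exact fun e => h1 e.symm)]
              split_ifs <;> omega
        · obtain ⟨f, k, hf, hk, hl⟩ := h.ex x (pt g) (fun e => h1 e.symm)
          have hln : ln f ≠ ln g := fun e => h2 ⟨f, e, hf⟩
          have hfg : f ≠ g := fun e => hln (by rw [e])
          refine ⟨Sum.inr f, hf, ?_, ?_⟩
          · simp only [dd]
            rw [if_neg hfg, if_neg hln, if_neg (by rw [hf]; exact fun e => h1 e.symm),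
              if_pos (Or.inl ⟨k, hl.symm, hk⟩), if_neg h1, if_neg h2]
          · rintro (z | f') hz hz'
            · exact hz.elim
            · simp only [adj_pf] at hz
              have hff : f' ≠ f := fun e => hz' (by rw [e])
              have hln' : ln f' ≠ ln g := fun e => h2 ⟨f', e, hz⟩
              have hfg' : f' ≠ g := fun e => hln' (by rw [e])
              simp only [dd]
              rw [if_neg h1, if_neg h2, if_neg hfg', if_neg hln',
                if_neg (by rw [hz]; exact fun e => h1 e.symm), if_neg]
              · split_ifs <;> omega
              · rintro (⟨k', hk1, hk2⟩ | ⟨k', hk1, hk2⟩)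
                · exact hff (h.uniq' (f := f') (g := k') (f' := f) (g' := k) hk1.symm hl
                    (by rw [hz, hf]) (by rw [hk2, hk]) (by rw [hz, hk2]; exact fun e => h1 e.symm)).1
                · rw [hz] at hk2
                  exact h2 ⟨k', hk1, hk2⟩
    · -- flag `f`, point `y`
      by_cases h1 : pt f = y
      · refine ⟨Sum.inl y, h1, ?_, ?_⟩
        · simp [dd, h1]
        · rintro (z | f') hz hz'
          · simp only [adj_fp] at hz
            exact absurd (by rw [← hz, h1]) hz'
          · simp only [adj_ff] at hz
            simp only [dd]
            rw [if_pos h1]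
            split_ifs <;> omega
      · by_cases h2 : On pt ln y f
        · obtain ⟨g, hg1, hg2⟩ := h2
          have hfg : f ≠ g := fun e => h1 (by rw [e, hg2])
          refine ⟨Sum.inr g, ⟨hg1.symm, hfg⟩, ?_, ?_⟩
          · simp only [dd]
            rw [if_pos hg2, if_neg h1, if_pos ⟨g, hg1, hg2⟩]
          · rintro (z | f') hz hz'
            · simp only [adj_fp] at hz
              simp only [dd]
              rw [if_neg h1, if_pos ⟨g, hg1, hg2⟩, if_neg (by rw [← hz]; exact h1)]
              omega
            · simp only [adj_ff] at hz
              have hff : f' ≠ g := fun e => hz' (by rw [e])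
              simp only [dd]
              rw [if_neg h1, if_pos ⟨g, hg1, hg2⟩, if_neg]
              · split_ifs <;> omega
              · intro e
                exact hff (h.inj _ _ (by rw [e, hg2]) (by rw [← hz.1, hg1]))
        · refine ⟨Sum.inl (pt f), rfl, ?_, ?_⟩
          · simp only [dd]
            rw [if_neg h1, if_neg h1, if_neg h2]
          · rintro (z | f') hz hz'
            · simp only [adj_fp] at hz
              exact absurd (by rw [hz]) hz'
            · simp only [adj_ff] at hz
              simp only [dd]
              rw [if_neg h1, if_neg h2, if_neg, if_neg]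
              · rintro ⟨k, hk1, hk2⟩
                exact h2 ⟨k, by rw [hk1, hz.1], hk2⟩
              · intro e
                exact h2 ⟨f', hz.1.symm, e⟩
    · -- flag `f`, flag `g`
      have hfg : f ≠ g := fun e => hne (by rw [e])
      by_cases h1 : ln f = ln g
      · refine ⟨Sum.inr g, ⟨h1, hfg⟩, ?_, ?_⟩
        · simp only [dd]
          rw [if_neg hfg, if_pos h1]
          simp
        · rintro (z | f') hz hz'
          · simp only [adj_fp] at hz
            simp only [dd]
            rw [if_neg hfg, if_pos h1]
            split_ifs <;> omega
          · simp only [adj_ff] at hz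
            have hff : f' ≠ g := fun e => hz' (by rw [e])
            simp only [dd]
            rw [if_neg hfg, if_pos h1, if_neg hff]
            split_ifs <;> omega
      · by_cases h2 : pt f = pt g
        · refine ⟨Sum.inl (pt f), rfl, ?_, ?_⟩
          · simp only [dd]
            rw [if_neg hfg, if_neg h1, if_pos h2, if_pos h2.symm]
          · rintro (z | f') hz hz'
            · simp only [adj_fp] at hz
              exact absurd (by rw [hz]) hz'
            · simp only [adj_ff] at hz
              have hln : ln f' ≠ ln g := by rw [← hz.1]; exact h1
              have hff : f' ≠ g := fun e => hln (by rw [e])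
              simp only [dd]
              rw [if_neg hfg, if_neg h1, if_pos h2, if_neg hff, if_neg hln]
              split_ifs <;> omega
        · by_cases h3 : On pt ln (pt g) f
          · obtain ⟨k, hk1, hk2⟩ := h3
            have hkg : k ≠ g := fun e => h1 (by rw [← hk1, e])
            have hfk : f ≠ k := fun e => h2 (by rw [e, hk2])
            refine ⟨Sum.inr k, ⟨hk1.symm, hfk⟩, ?_, ?_⟩
            · simp only [dd]
              rw [if_neg hkg, if_neg (by rw [hk1]; exact h1), if_pos hk2, if_neg hfg, if_neg h1,
                if_neg h2, if_pos (Or.inl ⟨k, hk1, hk2⟩)]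
            · rintro (z | f') hz hz'
              · simp only [adj_fp] at hz
                simp only [dd]
                rw [if_neg hfg, if_neg h1, if_neg h2, if_pos (Or.inl ⟨k, hk1, hk2⟩),
                  if_neg (by rw [← hz]; exact fun e => h2 e.symm), if_neg]
                · omega
                · rintro ⟨m, hm1, hm2⟩
                  apply h1
                  exact h.uniq f k m g hk1.symm hm1 (by rw [hm2, hz]) hk2
                    (by rw [hk2]; exact h2) ▸ hm1
              · simp only [adj_ff] at hz
                have hln : ln f' ≠ ln g := by rw [← hz.1]; exact h1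
                have hff : f' ≠ g := fun e => hln (by rw [e])
                have hfk' : f' ≠ k := fun e => hz' (by rw [e])
                have hpt : pt f' ≠ pt g := by
                  intro e
                  exact hfk' (h.inj _ _ (by rw [e, hk2]) (by rw [← hz.1, hk1]))
                simp only [dd]
                rw [if_neg hfg, if_neg h1, if_neg h2, if_pos (Or.inl ⟨k, hk1, hk2⟩), if_neg hff,
                  if_neg hln, if_neg hpt]
                split_ifs <;> omega
          · by_cases h4 : On pt ln (pt f) g
            · refine ⟨Sum.inl (pt f), rfl, ?_, ?_⟩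
              · simp only [dd]
                rw [if_neg (fun e => h2 e.symm), if_pos h4, if_neg hfg, if_neg h1, if_neg h2,
                  if_pos (Or.inr h4)]
              · rintro (z | f') hz hz'
                · simp only [adj_fp] at hz
                  exact absurd (by rw [hz]) hz'
                · simp only [adj_ff] at hz
                  have hln : ln f' ≠ ln g := by rw [← hz.1]; exact h1
                  have hff : f' ≠ g := fun e => hln (by rw [e])
                  have hpt : pt f' ≠ pt g := fun e => h3 ⟨f', hz.1.symm, e⟩
                  simp only [dd]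
                  rw [if_neg hfg, if_neg h1, if_neg h2, if_pos (Or.inr h4), if_neg hff,
                    if_neg hln, if_neg hpt]
                  split_ifs <;> omega
            · by_cases h5 : Meet pt ln f g
              · obtain ⟨k, m, hk, hm, hkm⟩ := h5
                have hfk : f ≠ k := fun e => h4 ⟨m, hm, by rw [← hkm, e]⟩
                have hlk : ln k ≠ ln g := by rw [hk]; exact h1
                have hkg : k ≠ g := fun e => hlk (by rw [e])
                have hptk : pt k ≠ pt g := fun e => h3 ⟨k, hk, e⟩
                refine ⟨Sum.inr k, ⟨hk.symm, hfk⟩, ?_, ?_⟩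
                · simp only [dd]
                  rw [if_neg hkg, if_neg hlk, if_neg hptk, if_pos (Or.inr ⟨m, hm, hkm.symm⟩),
                    if_neg hfg, if_neg h1, if_neg h2, if_neg (by rintro (e | e); exacts [h3 e, h4 e]),
                    if_pos ⟨k, m, hk, hm, hkm⟩]
                · rintro (z | f') hz hz'
                  · simp only [adj_fp] at hz
                    simp only [dd]
                    rw [if_neg hfg, if_neg h1, if_neg h2,
                      if_neg (by rintro (e | e); exacts [h3 e, h4 e]),
                      if_pos ⟨k, m, hk, hm, hkm⟩, if_neg (by rw [← hz]; exact fun e => h2 e.symm),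
                      if_neg (by rw [← hz]; exact h4)]
                  · simp only [adj_ff] at hz
                    have hln : ln f' ≠ ln g := by rw [← hz.1]; exact h1
                    have hff : f' ≠ g := fun e => hln (by rw [e])
                    have hpt : pt f' ≠ pt g := fun e => h3 ⟨f', hz.1.symm, e⟩
                    have hfk' : f' ≠ k := fun e => hz' (by rw [e])
                    simp only [dd]
                    rw [if_neg hfg, if_neg h1, if_neg h2,
                      if_neg (by rintro (e | e); exacts [h3 e, h4 e]),
                      if_pos ⟨k, m, hk, hm, hkm⟩, if_neg hff, if_neg hln, if_neg hpt, if_neg]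
                    · split_ifs <;> omega
                    · rintro (⟨j, hj1, hj2⟩ | ⟨j, hj1, hj2⟩)
                      · exact h3 ⟨j, by rw [hj1, hz.1], hj2⟩
                      · by_cases e : pt f' = pt k
                        · exact hfk' (h.inj _ _ e (by rw [← hz.1, hk]))
                        · apply h1
                          have := h.uniq f' k j m (by rw [← hz.1, hk]) (by rw [hj1, hm]) hj2.symm
                            hkm e
                          rw [hz.1, this, hj1]
              · refine ⟨Sum.inl (pt f), rfl, ?_, ?_⟩
                · simp only [dd]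
                  rw [if_neg (fun e => h2 e.symm), if_neg h4, if_neg hfg, if_neg h1, if_neg h2,
                    if_neg (by rintro (e | e); exacts [h3 e, h4 e]), if_neg h5]
                · rintro (z | f') hz hz'
                  · simp only [adj_fp] at hz
                    exact absurd (by rw [hz]) hz'
                  · simp only [adj_ff] at hz
                    have hln : ln f' ≠ ln g := by rw [← hz.1]; exact h1
                    have hff : f' ≠ g := fun e => hln (by rw [e])
                    have hpt : pt f' ≠ pt g := fun e => h3 ⟨f', hz.1.symm, e⟩
                    simp only [dd]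
                    rw [if_neg hfg, if_neg h1, if_neg h2,
                      if_neg (by rintro (e | e); exacts [h3 e, h4 e]), if_neg h5, if_neg hff,
                      if_neg hln, if_neg hpt, if_neg, if_neg]
                    · rintro ⟨k, m, hk, hm, hkm⟩
                      exact h5 ⟨k, m, by rw [hk, hz.1], hm, hkm⟩
                    · rintro (⟨j, hj1, hj2⟩ | ⟨j, hj1, hj2⟩)
                      · exact h3 ⟨j, by rw [hj1, hz.1], hj2⟩
                      · exact h5 ⟨f', j, hz.1.symm, hj1, hj2.symm⟩

end

end Pool.Agent.Lib_MP_be4ebb_co
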