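import Mathlib

/-!
The numeric lemma: every large `n` is the order of a member of the family for each admissible
number of points.
-/

set_option autoImplicit false

namespace Pool.Agent.Lib_MP_be4ebb_co

theorem numeric (n j : ℕ) (hs : 1000 ≤ Nat.sqrt n) (hj : 20 * (10 + j) ≤ Nat.sqrt n) :
    ∃ m a b s : ℕ, 1 ≤ m ∧ 1 ≤ a + b ∧ 1 + m + 2 * a + 3 * b + s = Nat.sqrt n + 10 + j ∧
      n + m ^ 2 + 3 * a + 8 * b = (1 + m + 2 * a + 3 * b + s) ^ 2 + 1 := by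
  have h1 : Nat.sqrt n * Nat.sqrt n ≤ n := Nat.sqrt_le n
  have h2 : n < (Nat.sqrt n + 1) * (Nat.sqrt n + 1) := Nat.lt_succ_sqrt n
  generalize Nat.sqrt n = r at *
  obtain ⟨D, hD⟩ : ∃ D, n + D = (r + 10 + j) * (r + 10 + j) :=
    ⟨(r + 10 + j) * (r + 10 + j) - n, by
      have : n ≤ (r + 10 + j) * (r + 10 + j) := by nlinarith
      omega⟩
  have hD16 : 16 ≤ D := by nlinarith
  have hDle : 400 * D ≤ 41 * (r * r) := by
    have h3 : D ≤ (10 + j) * (2 * r + (10 + j)) := by nlinarith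
    have h4 : 20 * (2 * r + (10 + j)) ≤ 41 * r := by omega
    have h5 : (20 * (10 + j)) * (20 * (2 * r + (10 + j))) ≤ r * (41 * r) := Nat.mul_le_mul hj h4
    nlinarith
  have hm1 : Nat.sqrt (D - 15) * Nat.sqrt (D - 15) ≤ D - 15 := Nat.sqrt_le _
  have hm2 : D - 15 < (Nat.sqrt (D - 15) + 1) * (Nat.sqrt (D - 15) + 1) := Nat.lt_succ_sqrt _
  have hm3 : 1 ≤ Nat.sqrt (D - 15) := by
    rw [Nat.le_sqrt]
    omega
  generalize Nat.sqrt (D - 15) = m at *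
  have hm4 : 40 * m ≤ 13 * r := by
    by_contra hc
    push Not at hc
    have h6 : (13 * r) * (13 * r) < (40 * m) * (40 * m) := Nat.mul_self_lt_mul_self hc
    have h7 : m * m ≤ D := le_trans hm1 (Nat.sub_le _ _)
    nlinarith
  obtain ⟨D', hD'⟩ : ∃ D', D' + m * m = D + 1 := ⟨D + 1 - m * m, by omega⟩
  have hD'1 : 16 ≤ D' := by omega
  have hD'2 : D' ≤ 2 * m + 16 := by
    have : (m + 1) * (m + 1) = m * m + 2 * m + 1 := by ring
    omega
  obtain ⟨a, b, hab, hb⟩ : ∃ a b, 3 * a + 8 * b = D' ∧ b ≤ 2 :=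
    ⟨(D' - 8 * ((2 * D') % 3)) / 3, (2 * D') % 3, by omega, by omega⟩
  refine ⟨m, a, b, r + 10 + j - (1 + m + 2 * a + 3 * b), hm3, by omega, by omega, ?_⟩
  have hsum : 1 + m + 2 * a + 3 * b + (r + 10 + j - (1 + m + 2 * a + 3 * b)) = r + 10 + j := by
    omega
  rw [hsum]
  nlinarith

end Pool.Agent.Lib_MP_be4ebb_co
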