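import Pool.Agent.Lib_MP_be4ebb_co.Bicon

/-!
A family of linear spaces: one special point, the other points are divided into classes `i : ι` of
sizes `k i`; the lines are the classes together with the special point, and the pairs of points in
different classes.
-/

set_option autoImplicit false

namespace Pool.Agent.Lib_MP_be4ebb_co

variable {ι : Type} (k : ι → ℕ)

/-- points other than the special one -/
abbrev X := Σ i : ι, Fin (k i)

/-- flags -/
abbrev Fl := ι ⊕ (X k ⊕ {p : X k × X k // ¬ p.1.1 = p.2.1})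

/-- point of a flag -/
def pt : Fl k → Option (X k)
  | Sum.inl _ => none
  | Sum.inr (Sum.inl x) => some x
  | Sum.inr (Sum.inr p) => some p.1.1

/-- line of a flag -/
def ln : Fl k → ι ⊕ Sym2 (X k)
  | Sum.inl i => Sum.inl i
  | Sum.inr (Sum.inl x) => Sum.inl x.1
  | Sum.inr (Sum.inr p) => Sum.inr s(p.1.1, p.1.2)

open Classical in
/-- the line through two distinct points -/
noncomputable def ell : Option (X k) → Option (X k) → Option (ι ⊕ Sym2 (X k))
  | none, none => none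
  | none, some x => some (Sum.inl x.1)
  | some x, none => some (Sum.inl x.1)
  | some x, some y => if x.1 = y.1 then some (Sum.inl x.1) else some (Sum.inr s(x, y))

theorem ell_eq (f g : Fl k) (h : ln k f = ln k g) (hp : pt k f ≠ pt k g) :
    some (ln k f) = ell k (pt k f) (pt k g) := by
  rcases f with i | x | ⟨⟨x, y⟩, hxy⟩ <;> rcases g with j | z | ⟨⟨z, w⟩, hzw⟩
  · exact absurd rfl hp
  · simp only [ln, pt, ell] at h ⊢
    rw [h]
  · simp [ln] at h
  · simp [ln, pt, ell]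
  · simp only [ln, pt, ell, Sum.inl.injEq] at h ⊢
    rw [if_pos h]
  · simp [ln] at h
  · simp [ln] at h
  · simp [ln] at h
  · simp only [ln, pt, ell, Sum.inr.injEq, ne_eq, Option.some.injEq] at h hp ⊢
    have e : x = w ∧ y = z := by
      rcases Sym2.eq_iff.1 h with ⟨e1, _⟩ | e
      · exact absurd e1 hp
      · exact e
    obtain ⟨e1, e2⟩ := e
    subst e1
    subst e2
    simp only at hxy
    rw [if_neg hxy]

theorem linAx : LinAx (pt k) (ln k) where
  inj := by
    intro f g h1 h2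
    rcases f with i | x | ⟨⟨x, y⟩, hxy⟩ <;> rcases g with j | z | ⟨⟨z, w⟩, hzw⟩
    · simp only [ln, Sum.inl.injEq] at h2
      rw [h2]
    · simp [pt] at h1
    · simp [pt] at h1
    · simp [pt] at h1
    · simp only [pt, Option.some.injEq] at h1
      rw [h1]
    · simp [ln] at h2
    · simp [pt] at h1
    · simp [ln] at h2
    · simp only [pt, ln, Option.some.injEq, Sum.inr.injEq] at h1 h2
      subst h1
      have := Sym2.congr_right.1 h2
      subst this
      rfl
  ex := by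
    classical
    rintro (_ | x) (_ | y) hxy
    · exact absurd rfl hxy
    · exact ⟨Sum.inl y.1, Sum.inr (Sum.inl y), rfl, rfl, rfl⟩
    · exact ⟨Sum.inr (Sum.inl x), Sum.inl x.1, rfl, rfl, rfl⟩
    · by_cases e : x.1 = y.1
      · refine ⟨Sum.inr (Sum.inl x), Sum.inr (Sum.inl y), rfl, rfl, ?_⟩
        simp only [ln, e]
      · refine ⟨Sum.inr (Sum.inr ⟨(x, y), e⟩), Sum.inr (Sum.inr ⟨(y, x), fun e' => e e'.symm⟩),
          rfl, rfl, ?_⟩
        simp only [ln, Sym2.eq_swap]
  uniq := by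
    intro f g f' g' h1 h2 h3 h4 h5
    have a := ell_eq k f g h1 h5
    have b := ell_eq k f' g' h2 (by rw [← h3, ← h4]; exact h5)
    rw [← h3, ← h4, ← a] at b
    exact (Option.some.inj b).symm

theorem two_on_line (hk : ∀ i, 1 ≤ k i) (f : Fl k) : ∃ g, ln k g = ln k f ∧ pt k g ≠ pt k f := by
  rcases f with i | x | ⟨⟨x, y⟩, hxy⟩
  · exact ⟨Sum.inr (Sum.inl ⟨i, ⟨0, hk i⟩⟩), rfl, by simp [pt]⟩
  · exact ⟨Sum.inl x.1, rfl, by simp [pt]⟩
  · refine ⟨Sum.inr (Sum.inr ⟨(y, x), fun e' => hxy e'.symm⟩), ?_, ?_⟩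
    · simp only [ln, Sym2.eq_swap]
    · simp only [pt, ne_eq, Option.some.injEq]
      rintro rfl
      exact hxy rfl

theorem off_line (hk : ∀ i, 1 ≤ k i) (hι : ∀ i : ι, ∃ j, j ≠ i) (f : Fl k) :
    ∃ w, ¬ On (pt k) (ln k) w f := by
  have key : ∀ i : ι, ∀ f : Fl k, ln k f = Sum.inl i → ∃ w, ¬ On (pt k) (ln k) w f := by
    intro i f hf
    obtain ⟨j, hj⟩ := hι i
    refine ⟨some ⟨j, ⟨0, hk j⟩⟩, ?_⟩
    rintro ⟨g, hg1, hg2⟩
    rw [hf] at hg1
    rcases g with i' | x | ⟨⟨x, y⟩, hxy⟩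
    · simp [pt] at hg2
    · simp only [ln, pt, Sum.inl.injEq, Option.some.injEq] at hg1 hg2
      rw [hg2] at hg1
      exact hj hg1
    · simp [ln] at hg1
  rcases f with i | x | ⟨⟨x, y⟩, hxy⟩
  · exact key i _ rfl
  · exact key x.1 _ rfl
  · refine ⟨none, ?_⟩
    rintro ⟨g, hg1, hg2⟩
    rcases g with i' | x | ⟨⟨x, y⟩, hxy⟩
    · simp [ln] at hg1
    · simp [pt] at hg2
    · simp [pt] at hg2

/-- the graph -/
abbrev GG : SimpleGraph (Option (X k) ⊕ Fl k) := linGraph (pt k) (ln k)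

theorem GG_geodetic : IsGeodetic (GG k) := (linAx k).crit.isGeodetic

theorem GG_bicon [Finite ι] (hk : ∀ i, 1 ≤ k i) (hι : ∀ i : ι, ∃ j, j ≠ i) [Nonempty ι] :
    IsBiconnected (GG k) := by
  classical
  obtain ⟨i⟩ := ‹Nonempty ι›
  have hP : ∃ x y : Option (X k), x ≠ y := ⟨none, some ⟨i, ⟨0, hk i⟩⟩, by simp⟩
  refine ⟨?_, GG_geodetic k |>.1, fun r => bicon (linAx k) (two_on_line k hk) (off_line k hk hι) r hP⟩
  have := Fintype.ofFinite ι
  rw [Nat.card_sum]
  have h1 : 2 ≤ Nat.card (Option (X k)) := by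
    rw [Nat.card_eq_fintype_card, Fintype.card_option]
    have : 0 < Fintype.card (X k) := Fintype.card_pos_iff.2 ⟨⟨i, ⟨0, hk i⟩⟩⟩
    omega
  have h2 : 1 ≤ Nat.card (Fl k) := by
    rw [Nat.card_eq_fintype_card]
    exact Fintype.card_pos_iff.2 ⟨Sum.inl i⟩
  omega

/-- number of points -/
theorem card_points [Fintype ι] : Nat.card (Option (X k)) = 1 + ∑ i, k i := by
  rw [Nat.card_eq_fintype_card, Fintype.card_option, Fintype.card_sigma]
  simp [add_comm]

/-- number of flags -/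
theorem card_flags [Fintype ι] : Nat.card (Fl k) + ∑ i, k i ^ 2 =
    Fintype.card ι + ∑ i, k i + (∑ i, k i) ^ 2 := by
  classical
  have hX : Fintype.card (X k) = ∑ i, k i := by
    rw [Fintype.card_sigma]
    simp
  have e1 : {p : X k × X k // p.1.1 = p.2.1} ≃ Σ i : ι, (Fin (k i) × Fin (k i)) :=
    { toFun := fun p => match p with
        | ⟨(⟨i, a⟩, ⟨j, b⟩), h⟩ => ⟨j, (cast (by simp only at h; rw [h]) a, b)⟩
      invFun := fun q => ⟨(⟨q.1, q.2.1⟩, ⟨q.1, q.2.2⟩), rfl⟩
      left_inv := by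
        rintro ⟨⟨⟨i, a⟩, ⟨j, b⟩⟩, h⟩
        simp only at h
        subst h
        rfl
      right_inv := by
        rintro ⟨i, a, b⟩
        rfl }
  have h1 : Fintype.card {p : X k × X k // p.1.1 = p.2.1} = ∑ i, k i ^ 2 := by
    rw [Fintype.card_congr e1, Fintype.card_sigma]
    simp [sq]
  have h2 := Fintype.card_congr (Equiv.sumCompl (fun p : X k × X k => p.1.1 = p.2.1))
  rw [Fintype.card_sum, Fintype.card_prod, hX, h1] at h2
  rw [Nat.card_eq_fintype_card, Fintype.card_sum, Fintype.card_sum, hX, sq, ← h2]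
  ring

end Pool.Agent.Lib_MP_be4ebb_co
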